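import Pool.Agent.Y88.IC.Defs
import Pool.Agent.H957R3.Main

set_option autoImplicit false
set_option linter.unusedSectionVars false

namespace Pool.Agent.Y88.IC

universe u

open Polynomial Pool.Agent.H957R3 Pool.Agent.H957R3.Ind

variable {k : Type u} [Field k] {Γ : AddSubmonoid ℕ}

theorem mem_SR {f : k[X]} : f ∈ SR k Γ ↔ ∀ n, n ∉ Γ → f.coeff n = 0 := Iff.rfl

/-- coefficients -/
noncomputable def cf (n : ℕ) : SR k Γ →ₗ[k] k := (lcoeff k n) ∘ₗ (SR k Γ).val.toLinearMap

theorem cf_apply (n : ℕ) (r : SR k Γ) : cf n r = (r : k[X]).coeff n := rfl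

theorem SR_ext {r s : SR k Γ} (h : ∀ n, cf n r = cf n s) : r = s :=
  Subtype.ext (Polynomial.ext h)

theorem cf_notMem {n : ℕ} (hn : n ∉ Γ) (r : SR k Γ) : cf n r = 0 := r.2 n hn

/-- scaling -/
noncomputable def ac (Γ : AddSubmonoid ℕ) (c : k) : SR k Γ →ₐ[k] SR k Γ :=
  AlgHom.codRestrict ((scale c).comp (SR k Γ).val) (SR k Γ) (by
    intro f n hn
    change (scale c (f : k[X])).coeff n = 0
    rw [scale_coeff, f.2 n hn, mul_zero])

theorem cf_ac (c : k) (n : ℕ) (r : SR k Γ) : cf n (ac Γ c r) = c ^ n * cf n r :=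
  scale_coeff c _ n

theorem ac_one : ac Γ (1 : k) = AlgHom.id k (SR k Γ) := by
  apply AlgHom.ext; intro f
  apply SR_ext; intro n
  rw [cf_ac, one_pow, one_mul]; rfl

theorem ac_mul (c d : k) : ac Γ (c * d) = (ac Γ c).comp (ac Γ d) := by
  apply AlgHom.ext; intro f
  apply SR_ext; intro n
  change cf n (ac Γ (c * d) f) = cf n (ac Γ c (ac Γ d f))
  rw [cf_ac, cf_ac, cf_ac, mul_pow, mul_assoc]

/-- The action of the Borel subgroup through the character `b ↦ b 1 1`. -/
noncomputable def actΓ (Γ : AddSubmonoid ℕ) : borel k →* (SR k Γ →ₐ[k] SR k Γ) where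
  toFun b := ac Γ ((b : G k) 1 1)
  map_one' := by
    have : ((1 : borel k) : G k) 1 1 = 1 := by simp
    rw [this, ac_one]
    rfl
  map_mul' := by
    intro a b
    have hb : (a : G k) 1 0 = 0 := a.2
    have : ((a * b : borel k) : G k) 1 1 = (a : G k) 1 1 * (b : G k) 1 1 := by
      rw [Subgroup.coe_mul, Matrix.SpecialLinearGroup.coe_mul, Matrix.mul_apply,
        Fin.sum_univ_two, hb]
      simp
    rw [this, ac_mul]
    rfl

/-- the monomial with a coefficient, which must be zero outside `Γ` -/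
noncomputable def mo (Γ : AddSubmonoid ℕ) (n : ℕ) (c : k) (h : n ∉ Γ → c = 0) : SR k Γ :=
  ⟨monomial n c, by
    intro m hm
    rw [coeff_monomial]
    split_ifs with e
    · subst e; exact h hm
    · rfl⟩

theorem cf_mo (m n : ℕ) (c : k) (h : n ∉ Γ → c = 0) :
    cf m (mo Γ n c h) = if n = m then c else 0 := by
  rw [cf_apply]
  exact coeff_monomial

/-- homogeneous component -/
noncomputable def comp (n : ℕ) (r : SR k Γ) : SR k Γ := mo Γ n (cf n r) fun h => cf_notMem h r

theorem cf_comp (m n : ℕ) (r : SR k Γ) : cf m (comp n r) = if n = m then cf m r else 0 := by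
  rw [comp, cf_mo]
  split_ifs with h
  · rw [h]
  · rfl

theorem cf_zero_of_bd {r : SR k Γ} {n : ℕ} (h : (r : k[X]).natDegree < n) : cf n r = 0 :=
  coeff_eq_zero_of_natDegree_lt h

theorem ac_eq_sum (c : k) (r : SR k Γ) :
    ac Γ c r = ∑ n ∈ Finset.range ((r : k[X]).natDegree + 1),
      algebraMap k (SR k Γ) (c ^ n) * comp n r := by
  apply SR_ext
  intro m
  rw [cf_ac, map_sum]
  simp only [← Algebra.smul_def, map_smul, cf_comp, smul_eq_mul, mul_ite, mul_zero]
  rw [Finset.sum_ite_eq']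
  split_ifs with h
  · rfl
  · rw [cf_zero_of_bd (by simpa using h), mul_zero]

/-- The `B`-algebra `k[Γ]`. -/
noncomputable def algΓ (k : Type u) [Field k] (Γ : AddSubmonoid ℕ) : BAlgebra k (SR k Γ) where
  act := actΓ Γ
  rational := by
    intro r
    refine ⟨∑ n ∈ Finset.range ((r : k[X]).natDegree + 1),
      MvPolynomial.C (comp n r) * (MvPolynomial.X (1, 1)) ^ n, fun b => ?_⟩
    change ac Γ ((b : G k) 1 1) r = _
    rw [ac_eq_sum, map_sum]
    refine Finset.sum_congr rfl fun n _ => ?_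
    rw [map_mul, MvPolynomial.eval_C, mul_comm, map_pow]
    congr 1
    simp only [map_pow, MvPolynomial.eval_X]

theorem algΓ_act (b : borel k) : (algΓ k Γ).act b = ac Γ ((b : G k) 1 1) := rfl

theorem algΓ_coeff (b : borel k) (r : SR k Γ) (n : ℕ) :
    (((algΓ k Γ).act b r : SR k Γ) : k[X]).coeff n = ((b : G k) 1 1) ^ n * (r : k[X]).coeff n :=
  cf_ac _ n r

/-! ### The induced algebra -/

/-- the induced algebra, as a type -/
def IA (k : Type u) [Field k] (Γ : AddSubmonoid ℕ) : Type u := ind (algΓ k Γ)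

noncomputable instance : CommRing (IA k Γ) := inferInstanceAs (CommRing (ind (algΓ k Γ)))
noncomputable instance : Algebra k (IA k Γ) := inferInstanceAs (Algebra k (ind (algΓ k Γ)))

/-- the underlying function -/
def IA.fn (f : IA k Γ) : G k → SR k Γ := f.1

theorem IA.mor (f : IA k Γ) : IsMorphism (fun g : G k => (g : Matrix (Fin 2) (Fin 2) k)) f.fn :=
  f.2.1

theorem IA.equivar (f : IA k Γ) (g : G k) (b : borel k) :
    f.fn (g * (b : G k)) = ac Γ ((b : G k) 0 0) (f.fn g) := by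
  have h := f.2.2 g b
  rw [algΓ_act, inv_11] at h
  exact h

/-- construct elements -/
def IA.mk (f : G k → SR k Γ)
    (h1 : IsMorphism (fun g : G k => (g : Matrix (Fin 2) (Fin 2) k)) f)
    (h2 : ∀ (g : G k) (b : borel k), f (g * (b : G k)) = ac Γ ((b : G k) 0 0) (f g)) : IA k Γ :=
  ⟨f, h1, fun g b => by rw [h2 g b, algΓ_act, inv_11]⟩

theorem IA.ext {f h : IA k Γ} (e : ∀ g, f.fn g = h.fn g) : f = h := Subtype.ext (funext e)

/-- evaluation at `g` -/
noncomputable def ev (g : G k) : IA k Γ →ₐ[k] SR k Γ :=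
  (Pi.evalAlgHom k (fun _ : G k => SR k Γ) g).comp (ind (algΓ k Γ)).val

theorem ev_apply (g : G k) (f : IA k Γ) : ev g f = f.fn g := rfl

theorem IA.ext' {f h : IA k Γ} (e : ∀ g, ev g f = ev g h) : f = h := IA.ext e

theorem form [Infinite k] (n : ℕ) (f : IA k Γ) : ∃ P : k[X], ∀ g : G k, cf n (f.fn g) =
      ∑ i ∈ Finset.range (n + 1), P.coeff i * ((g 1 0) ^ i * (g 0 0) ^ (n - i)) := by
  obtain ⟨Φ, hΦ⟩ := f.mor
  obtain ⟨P, hP⟩ := curve (cf n) (fun z => ((lo z : G k) : Matrix (Fin 2) (Fin 2) k))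
    (fun ij => !![1, 0; X, 1] ij.1 ij.2) (by
      rintro z ⟨i, j⟩
      fin_cases i <;> fin_cases j <;> simp [lo, mk4]) Φ
  obtain ⟨Q, hQ⟩ := curve (cf n) (fun z => ((hi z : G k) : Matrix (Fin 2) (Fin 2) k))
    (fun ij => !![X, -1; 1, 0] ij.1 ij.2) (by
      rintro z ⟨i, j⟩
      fin_cases i <;> fin_cases j <;> simp [hi, mk4]) Φ
  refine ⟨P, (key n (fun g => cf n (f.fn g)) P Q (fun z => ?_) (fun z => ?_) ?_).2⟩
  · change cf n (f.fn (lo z)) = _
    rw [hΦ, hP]
  · change cf n (f.fn (hi z)) = _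
    rw [hΦ, hQ]
  · intro g b
    change cf n (f.fn (g * (b : G k))) = _
    rw [f.equivar g b, cf_ac]

/-- the constant term of an element of the induced algebra is constant -/
theorem const_term [Infinite k] (f : IA k Γ) (g h : G k) : cf 0 (f.fn g) = cf 0 (f.fn h) := by
  obtain ⟨P, hP⟩ := form 0 f
  rw [hP, hP]
  simp

/-- the values on the curve `lo` -/
theorem lo_poly (f : IA k Γ) (n : ℕ) : ∃ P : k[X], ∀ z, cf n (f.fn (lo z)) = P.eval z := by
  obtain ⟨Φ, hΦ⟩ := f.mor
  obtain ⟨P, hP⟩ := curve (cf n) (fun z => ((lo z : G k) : Matrix (Fin 2) (Fin 2) k))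
    (fun ij => !![1, 0; X, 1] ij.1 ij.2) (by
      rintro z ⟨i, j⟩
      fin_cases i <;> fin_cases j <;> simp [lo, mk4]) Φ
  exact ⟨P, fun z => by rw [hΦ, hP]⟩

/-- An element which vanishes on the curve `lo` is zero. -/
theorem eq_zero_of_lo [Infinite k] {f : IA k Γ} (h : ∀ z : k, f.fn (lo z) = 0) : f = 0 := by
  apply IA.ext
  intro g
  apply SR_ext
  intro n
  obtain ⟨P, hP⟩ := form n f
  have h1 : ∀ z : k, (∑ i ∈ Finset.range (n + 1), C (P.coeff i) * X ^ i).eval z = 0 := by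
    intro z
    have h2 := hP (lo z)
    rw [h z, map_zero] at h2
    rw [eval_finsetSum, h2]
    refine Finset.sum_congr rfl fun i _ => ?_
    have e1 : (lo z : G k) 1 0 = z := mk4_10 _ _ _ _ _
    have e2 : (lo z : G k) 0 0 = 1 := mk4_00 _ _ _ _ _
    rw [e1, e2]
    simp
  have h3 : (∑ i ∈ Finset.range (n + 1), C (P.coeff i) * X ^ i) = 0 :=
    Polynomial.eq_zero_of_infinite_isRoot _ (Set.infinite_univ.mono fun z _ => h1 z)
  have h4 : ∀ i ∈ Finset.range (n + 1), P.coeff i = 0 := by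
    intro i hi
    have h5 := congrArg (fun q => q.coeff i) h3
    simp only [finsetSum_coeff, coeff_C_mul, coeff_X_pow, mul_ite, mul_one, mul_zero,
      coeff_zero] at h5
    rw [Finset.sum_ite_eq, if_pos hi] at h5
    exact h5
  rw [hP g]
  change _ = cf n (0 : SR k Γ)
  rw [map_zero]
  refine Finset.sum_eq_zero fun i hi => ?_
  rw [h4 i hi, zero_mul]

theorem finite_zeros [Infinite k] {f : IA k Γ} (hf : f ≠ 0) : {z : k | f.fn (lo z) = 0}.Finite := by
  have : ∃ z, f.fn (lo z) ≠ 0 := by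
    by_contra h
    push Not at h
    exact hf (eq_zero_of_lo h)
  obtain ⟨z₀, hz₀⟩ := this
  obtain ⟨n, hn⟩ : ∃ n, cf n (f.fn (lo z₀)) ≠ 0 := by
    by_contra h
    push Not at h
    exact hz₀ (SR_ext fun n => by rw [h n, map_zero])
  obtain ⟨P, hP⟩ := lo_poly f n
  have hP0 : P ≠ 0 := by
    intro h
    rw [hP, h] at hn
    simp at hn
  refine Set.Finite.subset (Polynomial.finite_setOfPred_isRoot hP0) ?_
  intro z hz
  have h1 : f.fn (lo z) = 0 := hz
  change P.eval z = 0
  rw [← hP, h1, map_zero]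

theorem noZeroDiv [Infinite k] (f h : IA k Γ) (e : f * h = 0) : f = 0 ∨ h = 0 := by
  by_contra hcon
  push Not at hcon
  have h1 := (finite_zeros hcon.1).union (finite_zeros hcon.2)
  have h2 : (Set.univ : Set k) ⊆ {z : k | f.fn (lo z) = 0} ∪ {z : k | h.fn (lo z) = 0} := by
    intro z _
    have h3 : ev (lo z) f * ev (lo z) h = 0 := by rw [← map_mul, e, map_zero]
    exact mul_eq_zero.1 h3
  exact Set.infinite_univ (h1.subset h2)

theorem isDomain [Infinite k] : IsDomain (IA k Γ) := by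
  have : Nontrivial (IA k Γ) := by
    refine ⟨0, 1, fun h => ?_⟩
    have h1 := congrArg (ev (1 : G k)) h
    rw [map_zero, map_one] at h1
    exact zero_ne_one h1
  have : NoZeroDivisors (IA k Γ) := ⟨fun {a b} h => noZeroDiv a b h⟩
  exact NoZeroDivisors.to_isDomain _

end Pool.Agent.Y88.IC
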