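import Mathlib

set_option autoImplicit false

namespace Pool.Agent.Y88.IC

universe u

open Polynomial

/-- The semigroup ring `k[Γ]` of a submonoid `Γ` of `ℕ`: the polynomials in one variable all of whose
exponents are in `Γ`. -/
def SR (k : Type u) [Field k] (Γ : AddSubmonoid ℕ) : Subalgebra k k[X] where
  carrier := {f | ∀ n, n ∉ Γ → f.coeff n = 0}
  mul_mem' := by
    intro f g hf hg n hn
    rw [coeff_mul]
    refine Finset.sum_eq_zero fun p hp => ?_
    by_cases h1 : p.1 ∈ Γ
    · by_cases h2 : p.2 ∈ Γ
      · exact absurd (by rw [← Finset.HasAntidiagonal.mem_antidiagonal.1 hp]; exact Γ.add_mem h1 h2)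
          hn
      · rw [hg _ h2, mul_zero]
    · rw [hf _ h1, zero_mul]
  add_mem' := by
    intro f g hf hg n hn
    rw [coeff_add, hf n hn, hg n hn, add_zero]
  algebraMap_mem' := by
    intro c n hn
    rw [algebraMap_eq, coeff_C, if_neg]
    rintro rfl
    exact hn Γ.zero_mem

end Pool.Agent.Y88.IC
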