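import Pool.Agent.Y88.IC.NotCM

set_option autoImplicit false
set_option linter.unusedSectionVars false

namespace Pool.Agent.Y88.IC

universe u

open Polynomial IsLocalRing Pool.Agent.H957R3 Pool.Agent.H957R3.Ind

variable {k : Type u} [Field k] {Γ : AddSubmonoid ℕ}

/-! ### The semigroup ring -/

/-- the monomials -/
noncomputable def mon (n : ℕ) (hn : n ∈ Γ) : SR k Γ := mo Γ n 1 fun h => absurd hn h

theorem cf_mon (m n : ℕ) (hn : n ∈ Γ) : cf m (mon n hn : SR k Γ) = if n = m then 1 else 0 :=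
  cf_mo m n _ (fun h => absurd hn h)

theorem mon_split {N n m : ℕ} (hN : N ∈ Γ) (hn : n ∈ Γ) (hm : m ∈ Γ) (e : N = n + m) :
    (mon N hN : SR k Γ) = mon n hn * mon m hm := by
  subst e
  apply Subtype.ext
  change monomial (n + m) (1 : k) = monomial n 1 * monomial m 1
  rw [monomial_mul_monomial, one_mul]

open scoped Classical in
theorem comp_eq (n : ℕ) (r : SR k Γ) : comp n r = if h : n ∈ Γ then cf n r • mon n h else 0 := by
  apply SR_ext
  intro m
  rw [cf_comp]
  split_ifs with h1 h2 h2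
  · subst h1
    rw [map_smul, cf_mon, if_pos rfl, smul_eq_mul, mul_one]
  · subst h1
    rw [map_zero, cf_notMem h2]
  · rw [map_smul, cf_mon, if_neg h1, smul_zero]
  · rw [map_zero]

theorem eq_sum_comp (r : SR k Γ) :
    r = ∑ n ∈ Finset.range ((r : k[X]).natDegree + 1), comp n r := by
  apply SR_ext
  intro m
  rw [map_sum]
  simp only [cf_comp]
  rw [Finset.sum_ite_eq']
  split_ifs with h
  · rfl
  · rw [cf_zero_of_bd (by simpa using h)]

/-- the inclusion of `k[X^c]` -/
noncomputable def psi (c : ℕ) (hc : c ∈ Γ) : k[X] →ₐ[k] SR k Γ := Polynomial.aeval (mon c hc)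

theorem psi_X (c : ℕ) (hc : c ∈ Γ) : psi c hc X = (mon c hc : SR k Γ) := by
  unfold psi
  rw [aeval_X]

theorem psi_finite {c : ℕ} (hc0 : 0 < c) (hc : ∀ n, c ≤ n → n ∈ Γ) :
    ((psi c (hc c le_rfl) : k[X] →ₐ[k] SR k Γ) : k[X] →+* SR k Γ).Finite := by
  classical
  let _ : Algebra k[X] (SR k Γ) := ((psi c (hc c le_rfl) : k[X] →ₐ[k] SR k Γ) : k[X] →+* SR k Γ).toAlgebra
  change Module.Finite k[X] (SR k Γ)
  rw [Module.finite_def, Submodule.fg_def]
  refine ⟨Set.range fun m : Fin (2 * c) => if h : (m : ℕ) ∈ Γ then (mon m h : SR k Γ) else 0,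
    Set.finite_range _, ?_⟩
  set T := Submodule.span k[X] (Set.range fun m : Fin (2 * c) =>
    if h : (m : ℕ) ∈ Γ then (mon m h : SR k Γ) else 0) with hT
  have key1 : ∀ n (hn : n ∈ Γ), (mon n hn : SR k Γ) ∈ T := by
    intro n
    induction n using Nat.strong_induction_on with
    | _ n ih =>
      intro hn
      by_cases h : n < 2 * c
      · apply Submodule.subset_span
        refine ⟨⟨n, h⟩, ?_⟩
        simp only [dif_pos hn]
      · have h1 : n - c ∈ Γ := hc _ (by omega)
        have h2 := ih (n - c) (by omega) h1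
        have h3 : (mon n hn : SR k Γ) = (X : k[X]) • (mon (n - c) h1 : SR k Γ) := by
          rw [mon_split hn (hc c le_rfl) h1 (by omega), Algebra.smul_def]
          congr 1
          exact (psi_X c (hc c le_rfl)).symm
        rw [h3]
        exact Submodule.smul_mem _ _ h2
  rw [eq_top_iff]
  rintro r -
  rw [eq_sum_comp r]
  refine Submodule.sum_mem _ fun n _ => ?_
  rw [comp_eq]
  split_ifs with h
  · have h1 : cf n r • (mon n h : SR k Γ) = (C (cf n r) : k[X]) • (mon n h : SR k Γ) := by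
      rw [Algebra.smul_def, Algebra.smul_def]
      congr 1
      exact ((psi c (hc c le_rfl) : k[X] →ₐ[k] SR k Γ).commutes (cf n r)).symm
    rw [h1]
    exact Submodule.smul_mem _ _ (key1 n h)
  · exact Submodule.zero_mem _

section

variable {c : ℕ} (hc0 : 0 < c) (hc : ∀ n, c ≤ n → n ∈ Γ)
include hc0 hc

theorem SR_noetherian : IsNoetherianRing (SR k Γ) := by
  let _ : Algebra k[X] (SR k Γ) := ((psi c (hc c le_rfl) : k[X] →ₐ[k] SR k Γ) : k[X] →+* SR k Γ).toAlgebra
  have : Module.Finite k[X] (SR k Γ) := psi_finite hc0 hc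
  exact IsNoetherianRing.of_finite k[X] (SR k Γ)

theorem SR_dim : ringKrullDim (SR k Γ) ≤ 1 := by
  let _ : Algebra k[X] (SR k Γ) := ((psi c (hc c le_rfl) : k[X] →ₐ[k] SR k Γ) : k[X] →+* SR k Γ).toAlgebra
  have : Module.Finite k[X] (SR k Γ) := psi_finite hc0 hc
  refine le_trans (CM.ringKrullDim_le_of_integral k[X] (SR k Γ)) ?_
  rw [IsPrincipalIdealRing.ringKrullDim_eq_one k[X] (Polynomial.not_isField k)]

theorem SR_cm : CM.IsCohenMacaulayRing (SR k Γ) := by
  have := SR_noetherian (k := k) hc0 hc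
  exact CM.ring_of_reduced_dim_le_one (SR k Γ) (SR_dim hc0 hc)

theorem SR_finiteType : Algebra.FiniteType k (SR k Γ) := by
  let _ : Algebra k[X] (SR k Γ) := ((psi c (hc c le_rfl) : k[X] →ₐ[k] SR k Γ) : k[X] →+* SR k Γ).toAlgebra
  have h1 : Module.Finite k[X] (SR k Γ) := psi_finite hc0 hc
  have h2 : IsScalarTower k k[X] (SR k Γ) :=
    IsScalarTower.of_algebraMap_eq'
      (psi c (hc c le_rfl) : k[X] →ₐ[k] SR k Γ).comp_algebraMap.symm
  exact Algebra.FiniteType.trans (S := Polynomial k) inferInstance inferInstance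

end

/-! ### The induced algebra is finitely generated -/

theorem bound (Φ : MvPolynomial (Fin 2 × Fin 2) (SR k Γ)) : ∃ N : ℕ, ∀ (x : Fin 2 × Fin 2 → k)
    (n : ℕ), N < n →
      cf n (MvPolynomial.eval (fun ij => algebraMap k (SR k Γ) (x ij)) Φ) = 0 := by
  induction Φ using MvPolynomial.induction_on with
  | C r =>
    refine ⟨(r : k[X]).natDegree, fun x n hn => ?_⟩
    rw [MvPolynomial.eval_C]
    exact cf_zero_of_bd hn
  | add p q hp hq =>
    obtain ⟨N, hN⟩ := hp
    obtain ⟨M, hM⟩ := hq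
    refine ⟨max N M, fun x n hn => ?_⟩
    rw [map_add, map_add, hN x n (lt_of_le_of_lt (le_max_left _ _) hn),
      hM x n (lt_of_le_of_lt (le_max_right _ _) hn), add_zero]
  | mul_X p i hp =>
    obtain ⟨N, hN⟩ := hp
    refine ⟨N, fun x n hn => ?_⟩
    rw [map_mul, MvPolynomial.eval_X, mul_comm, ← Algebra.smul_def, map_smul, hN x n hn, smul_zero]

theorem gn_split {N n m I i j : ℕ} (hN : N ∈ Γ) (hI : I ≤ N) (hn : n ∈ Γ) (hi : i ≤ n)
    (hm : m ∈ Γ) (hj : j ≤ m) (e1 : N = n + m) (e2 : I = i + j) :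
    (gn N I hN hI : IA k Γ) = gn n i hn hi * gn m j hm hj := by
  subst e1 e2
  apply IA.ext
  intro g
  apply Subtype.ext
  change monomial (n + m) ((g 1 0) ^ (i + j) * (g 0 0) ^ (n + m - (i + j))) =
    monomial n ((g 1 0) ^ i * (g 0 0) ^ (n - i)) * monomial m ((g 1 0) ^ j * (g 0 0) ^ (m - j))
  rw [monomial_mul_monomial]
  congr 1
  obtain ⟨a, rfl⟩ := Nat.exists_eq_add_of_le hi
  obtain ⟨b, rfl⟩ := Nat.exists_eq_add_of_le hj
  rw [show i + a + (j + b) - (i + j) = a + b by omega, Nat.add_sub_cancel_left,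
    Nat.add_sub_cancel_left]
  ring

theorem finiteType [Infinite k] {c : ℕ} (hc0 : 0 < c) (hc : ∀ n, c ≤ n → n ∈ Γ) :
    Algebra.FiniteType k (IA k Γ) := by
  classical
  let gm : ℕ → ℕ → IA k Γ := fun n i => if h : n ∈ Γ ∧ i ≤ n then gn n i h.1 h.2 else 0
  have hgm : ∀ n i m g, cf m (ev g (gm n i)) =
      if n = m then (if n ∈ Γ ∧ i ≤ n then (g 1 0) ^ i * (g 0 0) ^ (n - i) else 0) else 0 := by
    intro n i m g
    simp only [gm]
    by_cases h : n ∈ Γ ∧ i ≤ n
    · rw [dif_pos h, if_pos h]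
      exact cf_gn n i h.1 h.2 g m
    · rw [dif_neg h, if_neg h, map_zero, map_zero, ite_self]
  refine ⟨Subalgebra.fg_def.2 ⟨Set.range fun p : Fin (2 * c) × Fin (2 * c) => gm p.1 p.2,
    Set.finite_range _, ?_⟩⟩
  rw [eq_top_iff]
  rintro f -
  set Adj := Algebra.adjoin k (Set.range fun p : Fin (2 * c) × Fin (2 * c) => gm p.1 p.2)
    with hAdj
  have key1 : ∀ n i, gm n i ∈ Adj := by
    intro n
    induction n using Nat.strong_induction_on with
    | _ n ih =>
      intro i
      by_cases h : n ∈ Γ ∧ i ≤ n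
      · by_cases h2 : n < 2 * c
        · exact Algebra.subset_adjoin ⟨(⟨n, h2⟩, ⟨i, by omega⟩), rfl⟩
        · have h1 : n - c ∈ Γ := hc _ (by omega)
          have h3 : gm n i = gm c (min i c) * gm (n - c) (i - min i c) := by
            have e1 : gm n i = gn n i h.1 h.2 := dif_pos h
            have e2 : gm c (min i c) = gn c (min i c) (hc c le_rfl) (min_le_right _ _) :=
              dif_pos ⟨hc c le_rfl, min_le_right _ _⟩
            have e3 : i - min i c ≤ n - c := by omega
            have e4 : gm (n - c) (i - min i c) = gn (n - c) (i - min i c) h1 e3 :=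
              dif_pos ⟨h1, e3⟩
            rw [e1, e2, e4]
            exact gn_split _ _ _ _ _ _ (by omega) (by omega)
          rw [h3]
          exact Subalgebra.mul_mem _ (ih c (by omega) _) (ih (n - c) (by omega) _)
      · have : gm n i = 0 := dif_neg h
        rw [this]
        exact Subalgebra.zero_mem _
  obtain ⟨Φ, hΦ⟩ := f.mor
  obtain ⟨N, hN⟩ := bound Φ
  choose P hP using fun n => form n f
  have hfeq : f = ∑ n ∈ Finset.range (N + 1), ∑ i ∈ Finset.range (n + 1),
      (P n).coeff i • gm n i := by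
    apply IA.ext'
    intro g
    apply SR_ext
    intro m
    simp only [map_sum, map_smul, hgm]
    by_cases hm : m ≤ N
    · rw [Finset.sum_eq_single m]
      · simp only [if_true]
        rw [ev_apply, hP m g]
        by_cases hmΓ : m ∈ Γ
        · refine Finset.sum_congr rfl fun i hi => ?_
          rw [Finset.mem_range] at hi
          rw [if_pos ⟨hmΓ, by omega⟩, smul_eq_mul]
        · rw [← hP m g, cf_notMem hmΓ]
          symm
          refine Finset.sum_eq_zero fun i _ => ?_
          rw [if_neg (fun h => hmΓ h.1), smul_zero]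
      · intro n _ hn
        refine Finset.sum_eq_zero fun i _ => ?_
        rw [if_neg hn, smul_zero]
      · intro h
        exact absurd (Finset.mem_range.2 (by omega)) h
    · have h1 : cf m (ev g f) = 0 := by
        rw [ev_apply, hΦ]
        exact hN _ m (by omega)
      rw [h1]
      symm
      refine Finset.sum_eq_zero fun n hn => Finset.sum_eq_zero fun i _ => ?_
      rw [Finset.mem_range] at hn
      rw [if_neg (by omega), smul_zero]
  rw [hfeq]
  exact Subalgebra.sum_mem _ fun n _ => Subalgebra.sum_mem _ fun i _ =>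
    Subalgebra.smul_mem _ (key1 _ _) _

end Pool.Agent.Y88.IC
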