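import Pool.Agent.Y88.IC.Act

set_option autoImplicit false
set_option linter.unusedSectionVars false

namespace Pool.Agent.Y88.IC

universe u

open Polynomial IsLocalRing Pool.Agent.H957R3 Pool.Agent.H957R3.Ind

variable {k : Type u} [Field k] {Γ : AddSubmonoid ℕ}

/-- the generators: `g ↦ g_{10}^i g_{00}^{n-i} X^n` -/
noncomputable def gn (n i : ℕ) (hn : n ∈ Γ) (hi : i ≤ n) : IA k Γ :=
  IA.mk (fun g => mo Γ n ((g 1 0) ^ i * (g 0 0) ^ (n - i)) fun h => absurd hn h)
    (by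
      refine ⟨MvPolynomial.C (mo Γ n 1 fun h => absurd hn h) *
        (MvPolynomial.X (1, 0) ^ i * MvPolynomial.X (0, 0) ^ (n - i)), fun g => ?_⟩
      rw [map_mul, MvPolynomial.eval_C, map_mul, map_pow, map_pow, MvPolynomial.eval_X,
        MvPolynomial.eval_X, ← map_pow, ← map_pow, ← map_mul, mul_comm, ← Algebra.smul_def]
      apply SR_ext
      intro m
      rw [map_smul, cf_mo, cf_mo]
      split_ifs <;> simp)
    (by
      intro g b
      have hb : (b : G k) 1 0 = 0 := b.2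
      apply SR_ext
      intro m
      rw [cf_ac, cf_mo, cf_mo, mul_entry, mul_entry, hb]
      split_ifs with h
      · subst h
        obtain ⟨j, rfl⟩ : ∃ j, n = i + j := ⟨n - i, by omega⟩
        rw [Nat.add_sub_cancel_left]
        ring
      · ring)

theorem cf_gn (n i : ℕ) (hn : n ∈ Γ) (hi : i ≤ n) (g : G k) (m : ℕ) :
    cf m ((gn n i hn hi : IA k Γ).fn g) = if n = m then (g 1 0) ^ i * (g 0 0) ^ (n - i) else 0 :=
  cf_mo m n _ (fun h => absurd hn h)

/-- the shift `r ↦ (r - r(0)) X^F` -/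
noncomputable def sh (F : ℕ) (hF : ∀ n ∈ Γ, 0 < n → n + F ∈ Γ) : SR k Γ →ₗ[k] SR k Γ where
  toFun r := ⟨((r : k[X]) - C (cf 0 r)) * X ^ F, by
    intro n hn
    rw [coeff_mul_X_pow']
    split_ifs with h
    · rw [coeff_sub, coeff_C]
      split_ifs with h0
      · rw [h0, cf_apply, sub_self]
      · rw [sub_zero]
        by_contra hne
        have h1 : n - F ∈ Γ := by
          by_contra h2
          exact hne (r.2 _ h2)
        have h3 := hF _ h1 (Nat.pos_of_ne_zero h0)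
        rw [Nat.sub_add_cancel h] at h3
        exact hn h3
    · rfl⟩
  map_add' := by
    intro r s
    apply Subtype.ext
    change ((r : k[X]) + (s : k[X]) - C (cf 0 (r + s))) * X ^ F =
      ((r : k[X]) - C (cf 0 r)) * X ^ F + ((s : k[X]) - C (cf 0 s)) * X ^ F
    rw [map_add, C_add]
    ring
  map_smul' := by
    intro c r
    apply Subtype.ext
    change (c • (r : k[X]) - C (cf 0 (c • r))) * X ^ F = c • (((r : k[X]) - C (cf 0 r)) * X ^ F)
    rw [map_smul, smul_eq_mul, C_mul, Polynomial.smul_eq_C_mul, Polynomial.smul_eq_C_mul]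
    ring

variable {F : ℕ} {hF : ∀ n ∈ Γ, 0 < n → n + F ∈ Γ}

theorem coe_sh (r : SR k Γ) : ((sh F hF r : SR k Γ) : k[X]) = ((r : k[X]) - C (cf 0 r)) * X ^ F :=
  rfl

theorem sh_ac (c d : k) (r : SR k Γ) : (c * d) ^ F • sh F hF (ac Γ d r) =
    ac Γ d (c ^ F • sh F hF r) := by
  apply SR_ext
  intro n
  rw [map_smul, cf_ac, map_smul, smul_eq_mul, smul_eq_mul, cf_apply, cf_apply, coe_sh, coe_sh,
    coeff_mul_X_pow', coeff_mul_X_pow']
  split_ifs with h
  · rw [coeff_sub, coeff_sub, coeff_C, coeff_C, cf_ac]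
    have h1 : (ac Γ d r : k[X]).coeff (n - F) = d ^ (n - F) * (r : k[X]).coeff (n - F) :=
      cf_ac d _ r
    rw [h1]
    obtain ⟨j, rfl⟩ : ∃ j, n = F + j := ⟨n - F, by omega⟩
    rw [Nat.add_sub_cancel_left]
    split_ifs with h0
    · subst h0
      simp
      ring
    · ring
  · ring

/-- multiplication by `g_{00}^F X^F`, up to constant terms -/
noncomputable def tr (hF : ∀ n ∈ Γ, 0 < n → n + F ∈ Γ) (f : IA k Γ) : IA k Γ :=
  IA.mk (fun g => (g 0 0) ^ F • sh F hF (f.fn g))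
    (by
      have h1 := morphism_comp (R := SR k Γ) (R' := SR k Γ) (S := G k) (sh F hF)
        (fun g : G k => (g : Matrix (Fin 2) (Fin 2) k)) f.fn f.mor
      obtain ⟨Φ, hΦ⟩ := h1
      refine ⟨Φ * MvPolynomial.X (0, 0) ^ F, fun g => ?_⟩
      rw [map_mul, map_pow, MvPolynomial.eval_X, ← hΦ g]
      change (g 0 0) ^ F • sh F hF (f.fn g) =
        sh F hF (f.fn g) * (algebraMap k (SR k Γ) (g 0 0)) ^ F
      rw [Algebra.smul_def, mul_comm, map_pow])
    (by
      intro g b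
      have hb : (b : G k) 1 0 = 0 := b.2
      change ((g * (b : G k)) 0 0) ^ F • sh F hF (f.fn (g * (b : G k))) = _
      rw [f.equivar g b, mul_entry, hb, mul_zero, add_zero]
      exact sh_ac _ _ _)

theorem tr_fn (f : IA k Γ) (g : G k) :
    (((tr hF f).fn g : SR k Γ) : k[X]) =
      C ((g 0 0) ^ F) * (((f.fn g : SR k Γ) : k[X]) - C (cf 0 (f.fn g))) * X ^ F := by
  change (g 0 0) ^ F • ((((f.fn g : SR k Γ) : k[X]) - C (cf 0 (f.fn g))) * X ^ F) = _
  rw [Polynomial.smul_eq_C_mul, mul_assoc]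

/-- the irrelevant maximal ideal -/
noncomputable def mm (k : Type u) [Field k] (Γ : AddSubmonoid ℕ) : Ideal (IA k Γ) :=
  RingHom.ker ((Polynomial.constantCoeff).comp
    (((SR k Γ).val : SR k Γ →+* k[X]).comp ((ev (k := k) (Γ := Γ) (1 : G k) : IA k Γ →ₐ[k] SR k Γ) : IA k Γ →+* SR k Γ)))

instance mm_prime : (mm k Γ).IsPrime := RingHom.ker_isPrime _

theorem mem_mm' {f : IA k Γ} : f ∈ mm k Γ ↔ cf 0 (f.fn 1) = 0 := by
  rw [mm, RingHom.mem_ker]; rfl

theorem mem_mm [Infinite k] {f : IA k Γ} : f ∈ mm k Γ ↔ ∀ g, cf 0 (f.fn g) = 0 := by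
  rw [mem_mm']
  constructor
  · intro h g
    rw [← h]
    exact const_term f g 1
  · intro h
    exact h 1

theorem not_mem_mm [Infinite k] {f : IA k Γ} : f ∉ mm k Γ ↔ ∀ g, cf 0 (f.fn g) ≠ 0 := by
  rw [mem_mm']
  constructor
  · intro h g h2
    apply h
    rw [← h2]
    exact const_term f 1 g
  · intro h
    exact h 1

theorem mul_tr [Infinite k] {f h : IA k Γ} (hf : f ∈ mm k Γ) (hh : h ∈ mm k Γ) :
    f * tr hF h = h * tr hF f := by
  rw [mem_mm] at hf hh
  apply IA.ext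
  intro g
  apply Subtype.ext
  change ((f.fn g : SR k Γ) : k[X]) * (((tr hF h).fn g : SR k Γ) : k[X]) =
    ((h.fn g : SR k Γ) : k[X]) * (((tr hF f).fn g : SR k Γ) : k[X])
  rw [tr_fn, tr_fn, hf, hh]
  simp only [C_0, sub_zero]
  ring

/-- the core computation -/
theorem not_mem_span [Infinite k] (hFn : F ∉ Γ) (a : IA k Γ) (ha : a ∈ mm k Γ) (ha0 : a ≠ 0)
    (w : Localization.AtPrime (mm k Γ))
    (hw : algebraMap (IA k Γ) _ (tr hF a) = algebraMap (IA k Γ) _ a * w) : False := by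
  obtain ⟨c, t, rfl⟩ := IsLocalization.exists_mk'_eq (mm k Γ).primeCompl w
  have h1 : algebraMap (IA k Γ) (Localization.AtPrime (mm k Γ)) (tr hF a * t) =
      algebraMap (IA k Γ) (Localization.AtPrime (mm k Γ)) (a * c) := by
    rw [map_mul, map_mul, hw, mul_assoc, IsLocalization.mk'_spec]
  obtain ⟨v, hv⟩ := (IsLocalization.eq_iff_exists (mm k Γ).primeCompl _).1 h1
  obtain ⟨z, hz⟩ : ∃ z : k, a.fn (lo z) ≠ 0 := by
    by_contra h
    push Not at h
    exact ha0 (eq_zero_of_lo h)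
  have hvc := not_mem_mm.1 (show (v : IA k Γ) ∉ mm k Γ from v.2) (lo z)
  have htc := not_mem_mm.1 (show (t : IA k Γ) ∉ mm k Γ from t.2) (lo z)
  have hac := mem_mm.1 ha (lo z)
  have h2 := congrArg (fun f : IA k Γ => ((f.fn (lo z) : SR k Γ) : k[X])) hv
  change (((v : IA k Γ).fn (lo z) : SR k Γ) : k[X]) *
      ((((tr hF a).fn (lo z) : SR k Γ) : k[X]) * (((t : IA k Γ).fn (lo z) : SR k Γ) : k[X])) =
    (((v : IA k Γ).fn (lo z) : SR k Γ) : k[X]) *
      (((a.fn (lo z) : SR k Γ) : k[X]) * ((c.fn (lo z) : SR k Γ) : k[X])) at h2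
  have hv0 : (((v : IA k Γ).fn (lo z) : SR k Γ) : k[X]) ≠ 0 := by
    intro h
    apply hvc
    rw [cf_apply, h, coeff_zero]
  have ha0' : ((a.fn (lo z) : SR k Γ) : k[X]) ≠ 0 := by
    intro h
    exact hz (Subtype.ext h)
  have h3 := mul_left_cancel₀ hv0 h2
  have e2 : (lo z : G k) 0 0 = 1 := mk4_00 _ _ _ _ _
  rw [tr_fn, hac, e2, one_pow, C_0, C_1, sub_zero, one_mul, mul_assoc] at h3
  have h4 := mul_left_cancel₀ ha0' h3
  have h5 : cf F (c.fn (lo z)) = 0 := cf_notMem hFn _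
  rw [cf_apply, ← h4, coeff_X_pow_mul'] at h5
  simp only [le_refl, if_true, Nat.sub_self] at h5
  exact htc h5

/-- Every regular sequence in the maximal ideal of the localization at the irrelevant ideal has
length at most one. -/
theorem length_le_one [Infinite k] (hF : ∀ n ∈ Γ, 0 < n → n + F ∈ Γ) (hFn : F ∉ Γ)
    (rs : List (Localization.AtPrime (mm k Γ)))
    (hrs : ∀ r ∈ rs, r ∈ maximalIdeal (Localization.AtPrime (mm k Γ)))
    (hreg : RingTheory.Sequence.IsRegular (Localization.AtPrime (mm k Γ)) rs) :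
    rs.length ≤ 1 := by
  match rs, hrs, hreg with
  | [], _, _ => simp
  | [_], _, _ => simp
  | x :: y :: l, hrs, hreg =>
    exfalso
    rw [RingTheory.Sequence.isRegular_cons_iff, RingTheory.Sequence.isRegular_cons_iff] at hreg
    obtain ⟨hx, hy, -⟩ := hreg
    have hxm := hrs x (by simp)
    have hym := hrs y (by simp)
    obtain ⟨a, s, rfl⟩ := IsLocalization.exists_mk'_eq (mm k Γ).primeCompl x
    obtain ⟨b, t, rfl⟩ := IsLocalization.exists_mk'_eq (mm k Γ).primeCompl y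
    have ha : a ∈ mm k Γ := (IsLocalization.AtPrime.mk'_mem_maximal_iff _ (mm k Γ) a s).1 hxm
    have hb : b ∈ mm k Γ := (IsLocalization.AtPrime.mk'_mem_maximal_iff _ (mm k Γ) b t).1 hym
    have ha0 : a ≠ 0 := by
      rintro rfl
      rw [IsLocalization.mk'_zero] at hx
      have h1 : (0 : Localization.AtPrime (mm k Γ)) • (1 : Localization.AtPrime (mm k Γ)) =
          (0 : Localization.AtPrime (mm k Γ)) • (0 : Localization.AtPrime (mm k Γ)) := by
        rw [zero_smul, zero_smul]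
      exact one_ne_zero (hx h1)
    -- the multiples of `x`
    have key1 : IsLocalization.mk' (Localization.AtPrime (mm k Γ)) b t *
        algebraMap (IA k Γ) _ (tr hF a) =
        IsLocalization.mk' (Localization.AtPrime (mm k Γ)) a s *
          (algebraMap (IA k Γ) _ (s : IA k Γ) *
            IsLocalization.mk' (Localization.AtPrime (mm k Γ)) (tr hF b) t) := by
      rw [← mul_assoc, IsLocalization.mk'_spec]
      rw [← IsLocalization.mk'_one (M := (mm k Γ).primeCompl) (Localization.AtPrime (mm k Γ))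
          (tr hF a),
        ← IsLocalization.mk'_one (M := (mm k Γ).primeCompl) (Localization.AtPrime (mm k Γ)) a,
        ← IsLocalization.mk'_mul, ← IsLocalization.mk'_mul, mul_tr hb ha, mul_one, one_mul]
    have key2 : ∀ w, algebraMap (IA k Γ) _ (tr hF a) ≠
        IsLocalization.mk' (Localization.AtPrime (mm k Γ)) a s * w := by
      intro w hw
      refine not_mem_span (hF := hF) hFn a ha ha0
        (IsLocalization.mk' (Localization.AtPrime (mm k Γ)) 1 s * w) ?_
      rw [hw, ← mul_assoc]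
      congr 1
      rw [← IsLocalization.mk'_one (M := (mm k Γ).primeCompl) (Localization.AtPrime (mm k Γ)) a,
            ← IsLocalization.mk'_mul, one_mul, mul_one]
    have h3 : IsLocalization.mk' (Localization.AtPrime (mm k Γ)) b t •
        (Submodule.Quotient.mk (algebraMap (IA k Γ) _ (tr hF a)) :
          QuotSMulTop (IsLocalization.mk' (Localization.AtPrime (mm k Γ)) a s)
            (Localization.AtPrime (mm k Γ))) =
        IsLocalization.mk' (Localization.AtPrime (mm k Γ)) b t • 0 := by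
      rw [smul_zero, ← Submodule.Quotient.mk_smul, smul_eq_mul, key1,
        Submodule.Quotient.mk_eq_zero]
      exact Submodule.smul_mem_pointwise_smul _ _ _ trivial
    have h4 := hy h3
    rw [Submodule.Quotient.mk_eq_zero] at h4
    obtain ⟨w, -, hw⟩ := (Submodule.mem_smul_pointwise_iff_exists _ _ _).1 h4
    exact key2 w hw.symm

/-- the prime ideal of functions vanishing at `1` -/
noncomputable def p1 (k : Type u) [Field k] (Γ : AddSubmonoid ℕ) : Ideal (IA k Γ) :=
  RingHom.ker (((SR k Γ).val : SR k Γ →+* k[X]).comp ((ev (k := k) (Γ := Γ) (1 : G k) : IA k Γ →ₐ[k] SR k Γ) : IA k Γ →+* SR k Γ))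

instance p1_prime : (p1 k Γ).IsPrime := RingHom.ker_isPrime _

theorem mem_p1 {f : IA k Γ} : f ∈ p1 k Γ ↔ f.fn 1 = 0 := by
  rw [p1, RingHom.mem_ker]
  constructor
  · intro h
    exact Subtype.ext h
  · intro h
    change ((f.fn 1 : SR k Γ) : k[X]) = 0
    rw [h]
    rfl

theorem bot_lt_p1 {n : ℕ} (hn : n ∈ Γ) (hn0 : 0 < n) : (⊥ : Ideal (IA k Γ)) < p1 k Γ := by
  refine lt_of_le_of_ne bot_le ?_
  intro h
  have h1 : (gn n 1 hn hn0 : IA k Γ) ∈ p1 k Γ := by
    rw [mem_p1]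
    apply SR_ext
    intro m
    rw [cf_gn, map_zero]
    have e : (1 : G k) 1 0 = 0 := by simp
    rw [e]
    simp
  rw [← h, Ideal.mem_bot] at h1
  have h2 := congrArg (fun f : IA k Γ => cf n (f.fn (lo 1))) h1
  simp only [cf_gn, if_true] at h2
  have e1 : (lo (1 : k) : G k) 1 0 = 1 := mk4_10 _ _ _ _ _
  have e2 : (lo (1 : k) : G k) 0 0 = 1 := mk4_00 _ _ _ _ _
  rw [e1, e2] at h2
  have h3 : cf n ((0 : IA k Γ).fn (lo 1)) = 0 := by
    change cf n (0 : SR k Γ) = 0
    rw [map_zero]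
  rw [h3] at h2
  simp at h2

theorem p1_lt_mm {n : ℕ} (hn : n ∈ Γ) (hn0 : 0 < n) : p1 k Γ < mm k Γ := by
  refine lt_of_le_of_ne ?_ ?_
  · intro f hf
    rw [mem_mm', mem_p1.1 hf, map_zero]
  · intro h
    have h1 : (gn n 0 hn hn0.le : IA k Γ) ∈ mm k Γ := by
      rw [mem_mm', cf_gn, if_neg (by omega)]
    rw [← h, mem_p1] at h1
    have h2 := congrArg (cf n) h1
    rw [cf_gn, if_pos rfl, map_zero] at h2
    simp at h2

theorem two_le_height [Infinite k] {n : ℕ} (hn : n ∈ Γ) (hn0 : 0 < n) :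
    2 ≤ (mm k Γ).height := by
  have := isDomain (k := k) (Γ := Γ)
  have h0 : (⊥ : Ideal (IA k Γ)).IsPrime := Ideal.isPrime_bot
  have h1 := Ideal.height_add_one_le_of_lt_of_isPrime (bot_lt_p1 (k := k) hn hn0)
  have h2 := Ideal.height_add_one_le_of_lt_of_isPrime (p1_lt_mm (k := k) hn hn0)
  calc (2 : ℕ∞) = 0 + 1 + 1 := by norm_num
    _ ≤ (⊥ : Ideal (IA k Γ)).height + 1 + 1 := by gcongr; exact zero_le
    _ ≤ (p1 k Γ).height + 1 := by gcongr
    _ ≤ _ := h2

theorem not_cm [Infinite k] (hF : ∀ n ∈ Γ, 0 < n → n + F ∈ Γ) (hFn : F ∉ Γ) {n : ℕ} (hn : n ∈ Γ)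
    (hn0 : 0 < n) : ¬ CM.IsCohenMacaulayRing (IA k Γ) := by
  intro h
  obtain ⟨-, rs, h1, h2, h3⟩ := h.2 (mm k Γ)
  have h4 := length_le_one hF hFn rs h1 h2
  rw [IsLocalization.AtPrime.ringKrullDim_eq_height (mm k Γ)] at h3
  have h5 := two_le_height (k := k) hn hn0
  have h6 : ((rs.length : ℕ∞) : WithBot ℕ∞) = ((mm k Γ).height : WithBot ℕ∞) := by
    rw [← h3]; rfl
  have h7 : (rs.length : ℕ∞) = (mm k Γ).height := WithBot.coe_injective h6
  rw [← h7] at h5
  have h8 : (2 : ℕ) ≤ rs.length := by exact_mod_cast h5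
  omega

end Pool.Agent.Y88.IC
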