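import Pool.Agent.Y88.IC.Defs
import Pool.Agent.H957R3.Ind

set_option autoImplicit false

namespace Pool.Agent.Y88.IC

universe u

open Polynomial Pool.Agent.H957R3 Pool.Agent.H957R3.Ind

/-- `B` acts on the semigroup ring `k[Γ]` by `b X^n = b₁₁^n X^n`. -/
def ActsByDegree {k : Type u} [Field k] {Γ : AddSubmonoid ℕ} (A : BAlgebra k (SR k Γ)) : Prop :=
  ∀ (b : borel k) (r : SR k Γ) (n : ℕ),
    (A.act b r : k[X]).coeff n = ((b : G k) 1 1) ^ n * (r : k[X]).coeff n

/-- `R` is an integral domain and a finitely generated `k`-algebra. -/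
def IsAffineDomain (k R : Type u) [Field k] [CommRing R] [Algebra k R] : Prop :=
  IsDomain R ∧ Algebra.FiniteType k R

/-- The induced algebra `ind_B^G R` is an integral domain, finitely generated over `k` and not
Cohen-Macaulay. -/
def IndNotCM {k R : Type u} [Field k] [CommRing R] [Algebra k R] (A : BAlgebra k R) : Prop :=
  IsAffineDomain k (ind A) ∧ ¬ CM.IsCohenMacaulayRing (ind A)

end Pool.Agent.Y88.IC
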